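import Mathlib

set_option autoImplicit false

namespace Pool.Agent.H478R3.PavSperner

open Finset

/-- The 16 points: the 8 points of the affine space of dimension 3 over F_2, each doubled. -/
abbrev Pt := Fin 8 × Fin 2

/-- The 14 planes of the affine space of dimension 3 over F_2 (points are numbers `0..7` read in
binary). -/
def planes : Finset (Finset (Fin 8)) :=
  {{0,1,2,3},{4,5,6,7},{0,1,4,5},{2,3,6,7},{0,1,6,7},{2,3,4,5},{0,2,4,6},{1,3,5,7},{0,2,5,7},
    {1,3,4,6},{0,3,4,7},{1,2,5,6},{0,3,5,6},{1,2,4,7}}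

lemma planes_card : planes.card = 14 := by decide +kernel

lemma planes_inter : ∀ P ∈ planes, ∀ Q ∈ planes, P ≠ Q → (P ∩ Q).card ≤ 2 := by decide +kernel

lemma planes_four : ∀ P ∈ planes, P.card = 4 := by decide +kernel

lemma planes_cover : ∀ i j k : Fin 8, ∃ P ∈ planes, i ∈ P ∧ j ∈ P ∧ k ∈ P := by decide +kernel

/-- A set of affine points, doubled. -/
def blk (P : Finset (Fin 8)) : Finset Pt := P ×ˢ univ

lemma mem_blk {P : Finset (Fin 8)} {x : Pt} : x ∈ blk P ↔ x.1 ∈ P := by
  simp [blk]

lemma blk_injective : Function.Injective blk := by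
  intro P Q h
  ext i
  have : ((i, 0) : Pt) ∈ blk P ↔ ((i, 0) : Pt) ∈ blk Q := by rw [h]
  simpa [mem_blk] using this

lemma card_blk (P : Finset (Fin 8)) : (blk P).card = 2 * P.card := by
  simp [blk, Finset.card_product, mul_comm]

/-- The 14 big hyperplanes. -/
def blocks : Finset (Finset Pt) := planes.image blk

lemma blocks_card : blocks.card = 14 := by
  rw [blocks, Finset.card_image_of_injective _ blk_injective, planes_card]

lemma block_card {B : Finset Pt} (hB : B ∈ blocks) : B.card = 8 := by
  obtain ⟨P, hP, rfl⟩ := Finset.mem_image.1 hB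
  rw [card_blk, planes_four P hP]

lemma block_inter {B C : Finset Pt} (hB : B ∈ blocks) (hC : C ∈ blocks) (h : B ≠ C) :
    (B ∩ C).card ≤ 4 := by
  obtain ⟨P, hP, rfl⟩ := Finset.mem_image.1 hB
  obtain ⟨Q, hQ, rfl⟩ := Finset.mem_image.1 hC
  have hPQ : P ≠ Q := fun e => h (by rw [e])
  have : blk P ∩ blk Q = blk (P ∩ Q) := by
    ext x; simp [mem_blk]
  rw [this, card_blk]
  have := planes_inter P hP Q hQ hPQ
  omega

/-- Independent sets: at most 6 elements, and not a 6-set inside a block. -/
def Ind (I : Finset Pt) : Prop := I.card ≤ 6 ∧ (I.card = 6 → ∀ B ∈ blocks, ¬ I ⊆ B)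

lemma ind_of_card {I : Finset Pt} (h : I.card ≤ 5) : Ind I :=
  ⟨by omega, fun h6 => by omega⟩

lemma ind_aug ⦃I J : Finset Pt⦄ (hI : Ind I) (hJ : Ind J) (hIJ : I.card < J.card) :
    ∃ e ∈ J, e ∉ I ∧ Ind (insert e I) := by
  have hJ6 := hJ.1
  by_cases h5 : I.card ≤ 4
  · obtain ⟨e, heJ, heI⟩ := Finset.exists_mem_notMem_of_card_lt_card hIJ
    refine ⟨e, heJ, heI, ind_of_card ?_⟩
    rw [Finset.card_insert_of_notMem heI]; omega
  · have hI5 : I.card = 5 := by omega
    have hJc : J.card = 6 := by omega
    by_cases hB : ∃ B ∈ blocks, I ⊆ B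
    · obtain ⟨B, hB, hIB⟩ := hB
      have hJB : ¬ J ⊆ B := hJ.2 hJc B hB
      obtain ⟨e, heJ, heB⟩ := Finset.not_subset.1 hJB
      have heI : e ∉ I := fun h => heB (hIB h)
      refine ⟨e, heJ, heI, ?_, ?_⟩
      · rw [Finset.card_insert_of_notMem heI]; omega
      · intro _ C hC hsub
        have hCB : C ≠ B := by
          rintro rfl
          exact heB (hsub (Finset.mem_insert_self e I))
        have h1 : I ⊆ C ∩ B := Finset.subset_inter
          (fun x hx => hsub (Finset.mem_insert_of_mem hx)) hIB
        have h2 := Finset.card_le_card h1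
        have h3 := block_inter hC hB hCB
        omega
    · push Not at hB
      obtain ⟨e, heJ, heI⟩ := Finset.exists_mem_notMem_of_card_lt_card hIJ
      refine ⟨e, heJ, heI, ?_, ?_⟩
      · rw [Finset.card_insert_of_notMem heI]; omega
      · intro _ C hC hsub
        exact hB C hC (fun x hx => hsub (Finset.mem_insert_of_mem hx))

lemma ind_subset ⦃I J : Finset Pt⦄ (hJ : Ind J) (hIJ : I ⊆ J) : Ind I := by
  have h1 := Finset.card_le_card hIJ
  refine ⟨h1.trans hJ.1, fun h6 B hB hIB => ?_⟩
  have h2 : J.card = 6 := by have := hJ.1; omega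
  have h3 : I = J := Finset.eq_of_subset_of_card_le hIJ (by omega)
  subst h3
  exact hJ.2 h2 B hB hIB

/-- The paving matroid of rank 6 on 16 points. -/
noncomputable def M : Matroid Pt :=
  (IndepMatroid.ofFinset (Set.univ) Ind (ind_of_card (by simp)) ind_subset ind_aug
    (fun _ _ => Set.subset_univ _)).matroid

lemma M_E : M.E = Set.univ := rfl

lemma M_indep (I : Finset Pt) : M.Indep (I : Set Pt) ↔ Ind I := by
  unfold M
  rw [IndepMatroid.matroid_Indep]
  exact IndepMatroid.ofFinset_indep _ _ _ _ _ _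

lemma indep_toFinset (I : Set Pt) : ∃ J : Finset Pt, (J : Set Pt) = I :=
  ⟨(Set.toFinite I).toFinset, by simp⟩

/-- closed sets among small sets -/
lemma closure_of_aug {I : Finset Pt} (hI : Ind I) (h : ∀ e, e ∉ I → Ind (insert e I)) :
    M.closure (I : Set Pt) = (I : Set Pt) := by
  have hI' : M.Indep (I : Set Pt) := (M_indep I).2 hI
  apply Set.Subset.antisymm
  · intro e he
    by_contra heI
    have heI' : e ∉ I := by simpa using heI
    have : e ∉ M.closure (I : Set Pt) := by
      rw [hI'.notMem_closure_iff_of_notMem heI (by rw [M_E]; trivial)]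
      have := (M_indep (insert e I)).2 (h e heI')
      simpa using this
    exact this he
  · exact M.subset_closure (I : Set Pt) (by rw [M_E]; exact Set.subset_univ _)

lemma flat_small {I : Finset Pt} (h : I.card ≤ 4) : M.closure (I : Set Pt) = (I : Set Pt) :=
  closure_of_aug (ind_of_card (by omega)) (fun e he => ind_of_card (by
    rw [Finset.card_insert_of_notMem he]; omega))

/-- The 5-subsets contained in no block. -/
def triv : Finset (Finset Pt) :=
  (powersetCard 5 (univ : Finset Pt)).filter (fun F => ∀ B ∈ blocks, ¬ F ⊆ B)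

lemma mem_triv {F : Finset Pt} : F ∈ triv ↔ F.card = 5 ∧ ∀ B ∈ blocks, ¬ F ⊆ B := by
  simp [triv, Finset.mem_powersetCard]

lemma flat_triv {F : Finset Pt} (h : F ∈ triv) : M.closure (F : Set Pt) = (F : Set Pt) := by
  obtain ⟨h5, hB⟩ := mem_triv.1 h
  refine closure_of_aug (ind_of_card (by omega)) (fun e he => ⟨?_, ?_⟩)
  · rw [Finset.card_insert_of_notMem he]; omega
  · intro _ B hBb hsub
    exact hB B hBb (fun x hx => hsub (Finset.mem_insert_of_mem hx))

lemma closure_block {I B : Finset Pt} (hI : I.card = 5) (hB : B ∈ blocks) (hIB : I ⊆ B) :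
    M.closure (I : Set Pt) = (B : Set Pt) := by
  have hI' : M.Indep (I : Set Pt) := (M_indep I).2 (ind_of_card (by omega))
  ext e
  by_cases heI : e ∈ I
  · have h1 : e ∈ M.closure (I : Set Pt) :=
      M.subset_closure (I : Set Pt) (by rw [M_E]; exact Set.subset_univ _) (by simpa using heI)
    exact ⟨fun _ => by simpa using hIB heI, fun _ => h1⟩
  · have heI' : e ∉ (I : Set Pt) := by simpa using heI
    have key := hI'.notMem_closure_iff_of_notMem heI' (by rw [M_E]; trivial)
    have h2 : M.Indep (insert e (I : Set Pt)) ↔ Ind (insert e I) := by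
      rw [← M_indep]; simp
    rw [h2] at key
    have hc : (insert e I).card = 6 := by rw [Finset.card_insert_of_notMem heI]; omega
    constructor
    · intro he
      by_contra heB
      have heB' : e ∉ B := by simpa using heB
      apply (key.2 ?_) he
      refine ⟨by omega, fun _ C hC hsub => ?_⟩
      have hCB : C ≠ B := by
        rintro rfl
        exact heB' (hsub (Finset.mem_insert_self e I))
      have h1 : I ⊆ C ∩ B := Finset.subset_inter
        (fun x hx => hsub (Finset.mem_insert_of_mem hx)) hIB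
      have h2 := Finset.card_le_card h1
      have h3 := block_inter hC hB hCB
      omega
    · intro heB
      by_contra hne
      have := key.1 hne
      exact this.2 hc B hB (Finset.insert_subset (by simpa using heB) hIB)

/-- The 28 unions of two doubled points. -/
def quads : Finset (Finset Pt) := (powersetCard 2 (univ : Finset (Fin 8))).image blk

lemma quads_card : quads.card = 28 := by
  rw [quads, Finset.card_image_of_injective _ blk_injective, Finset.card_powersetCard]
  decide

lemma quad_card {Q : Finset Pt} (hQ : Q ∈ quads) : Q.card = 4 := by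
  obtain ⟨P, hP, rfl⟩ := Finset.mem_image.1 hQ
  rw [card_blk, (Finset.mem_powersetCard.1 hP).2]

/-- A trivial 5-set contains no union of two doubled points. -/
lemma quad_not_subset {Q F : Finset Pt} (hQ : Q ∈ quads) (hF : F ∈ triv) : ¬ Q ⊆ F := by
  intro hQF
  obtain ⟨h5, hB⟩ := mem_triv.1 hF
  have h4 := quad_card hQ
  obtain ⟨P, hP, rfl⟩ := Finset.mem_image.1 hQ
  obtain ⟨i, j, hij, rfl⟩ := Finset.card_eq_two.1 (Finset.mem_powersetCard.1 hP).2
  have h1 : (F \ blk {i, j}).card = 1 := by
    rw [Finset.card_sdiff_of_subset hQF]; omega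
  obtain ⟨x, hx⟩ := Finset.card_eq_one.1 h1
  obtain ⟨R, hR, hi, hj, hk⟩ := planes_cover i j x.1
  refine hB (blk R) (Finset.mem_image_of_mem _ hR) (fun y hy => ?_)
  rw [mem_blk]
  by_cases hyQ : y ∈ blk {i, j}
  · rw [mem_blk] at hyQ
    rcases Finset.mem_insert.1 hyQ with h | h
    · rw [h]; exact hi
    · rw [Finset.mem_singleton.1 h]; exact hj
  · have : y ∈ F \ blk {i, j} := Finset.mem_sdiff.2 ⟨hy, hyQ⟩
    rw [hx, Finset.mem_singleton] at this
    rw [this]; exact hk

lemma triv_card : 3584 ≤ triv.card := by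
  have h1 : (powersetCard 5 (univ : Finset Pt)).card = 4368 := by
    rw [Finset.card_powersetCard]
    have : (univ : Finset Pt).card = 16 := by simp [Pt]
    rw [this]; decide
  have h2 : (powersetCard 5 (univ : Finset Pt)) ⊆
      triv ∪ blocks.biUnion (fun B => powersetCard 5 B) := by
    intro F hF
    rw [Finset.mem_powersetCard] at hF
    by_cases h : ∀ B ∈ blocks, ¬ F ⊆ B
    · exact Finset.mem_union_left _ (mem_triv.2 ⟨hF.2, h⟩)
    · push Not at h
      obtain ⟨B, hB, hFB⟩ := h
      exact Finset.mem_union_right _ (Finset.mem_biUnion.2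
        ⟨B, hB, Finset.mem_powersetCard.2 ⟨hFB, hF.2⟩⟩)
  have h3 := Finset.card_le_card h2
  have h4 := Finset.card_union_le triv (blocks.biUnion (fun B => powersetCard 5 B))
  have h5 : (blocks.biUnion (fun B => powersetCard 5 B)).card ≤ 14 * 56 := by
    have := Finset.card_biUnion_le_card_mul blocks (fun B => powersetCard 5 B) 56
      (fun B hB => by
        rw [Finset.card_powersetCard, block_card hB]; decide)
    rw [blocks_card] at this
    exact this
  omega

/-- The antichain of flats. -/
def anti : Finset (Finset Pt) := triv ∪ quads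

lemma anti_card : anti.card = triv.card + 28 := by
  rw [anti, Finset.card_union_of_disjoint, quads_card]
  rw [Finset.disjoint_left]
  intro F hF hQ
  have h1 := (mem_triv.1 hF).1
  have h2 := quad_card hQ
  omega

lemma anti_antichain {F G : Finset Pt} (hF : F ∈ anti) (hG : G ∈ anti) (hFG : F ⊆ G) : F = G := by
  rcases Finset.mem_union.1 hF with hF | hF <;> rcases Finset.mem_union.1 hG with hG | hG
  · exact Finset.eq_of_subset_of_card_le hFG (by
      rw [(mem_triv.1 hF).1, (mem_triv.1 hG).1])
  · have h1 := Finset.card_le_card hFG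
    rw [(mem_triv.1 hF).1, quad_card hG] at h1
    omega
  · exact absurd hFG (quad_not_subset hF hG)
  · exact Finset.eq_of_subset_of_card_le hFG (by rw [quad_card hF, quad_card hG])

/-- Flats of rank `k ≤ 4` are the `k`-subsets. -/
lemma flat_eq {F : Set Pt} (hF : M.IsFlat F) {k : ℕ} (hk : M.eRk F = (k : ℕ∞)) :
    ∃ I : Finset Pt, I.card = k ∧ Ind I ∧ M.closure (I : Set Pt) = F := by
  obtain ⟨I, hI⟩ := M.exists_isBasis F (by rw [M_E]; exact Set.subset_univ _)
  obtain ⟨J, rfl⟩ := indep_toFinset I
  refine ⟨J, ?_, (M_indep J).1 hI.indep, ?_⟩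
  · have h1 := hI.encard_eq_eRk
    rw [hk, Set.encard_coe_eq_coe_finsetCard] at h1
    exact_mod_cast h1
  · rw [hI.closure_eq_closure, hF.closure]

lemma level_count (k : ℕ) :
    {F : Set Pt | M.IsFlat F ∧ M.eRk F = (k : ℕ∞)}.ncard < triv.card + 28 := by
  have htriv := triv_card
  rcases lt_or_ge k 5 with hk | hk
  · -- k ≤ 4
    have hsub : {F : Set Pt | M.IsFlat F ∧ M.eRk F = (k : ℕ∞)} ⊆
        (fun I : Finset Pt => (I : Set Pt)) '' (powersetCard k (univ : Finset Pt) : Set _) := by
      rintro F ⟨hF, hr⟩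
      obtain ⟨I, hI, _, hc⟩ := flat_eq hF hr
      refine ⟨I, ?_, ?_⟩
      · simp [Finset.mem_powersetCard, hI]
      · rw [← hc, flat_small (by omega)]
    have h1 := Set.ncard_le_ncard hsub (Set.toFinite _)
    have h2 := Set.ncard_image_le (f := fun I : Finset Pt => (I : Set Pt))
      (s := (powersetCard k (univ : Finset Pt) : Set (Finset Pt))) (Set.toFinite _)
    rw [Set.ncard_coe_finset, Finset.card_powersetCard] at h2
    have h3 : (univ : Finset Pt).card = 16 := by simp [Pt]
    rw [h3] at h2
    have h4 : Nat.choose 16 k ≤ 1820 := by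
      interval_cases k <;> decide
    omega
  · rcases eq_or_lt_of_le hk with hk | hk
    · subst hk
      have hsub : {F : Set Pt | M.IsFlat F ∧ M.eRk F = ((5 : ℕ) : ℕ∞)} ⊆
          (fun I : Finset Pt => (I : Set Pt)) '' ((triv ∪ blocks : Finset (Finset Pt)) : Set _) := by
        rintro F ⟨hF, hr⟩
        obtain ⟨I, hI, _, hc⟩ := flat_eq hF hr
        by_cases hB : ∀ B ∈ blocks, ¬ I ⊆ B
        · have hIt : I ∈ triv := mem_triv.2 ⟨hI, hB⟩
          refine ⟨I, ?_, ?_⟩
          · simp [hIt]
          · rw [← hc, flat_triv hIt]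
        · push Not at hB
          obtain ⟨B, hB, hIB⟩ := hB
          refine ⟨B, ?_, ?_⟩
          · simp [hB]
          · rw [← hc, closure_block hI hB hIB]
      have h1 := Set.ncard_le_ncard hsub (Set.toFinite _)
      have h2 := Set.ncard_image_le (f := fun I : Finset Pt => (I : Set Pt))
        (s := ((triv ∪ blocks : Finset (Finset Pt)) : Set (Finset Pt))) (Set.toFinite _)
      rw [Set.ncard_coe_finset] at h2
      have h3 := Finset.card_union_le triv blocks
      rw [blocks_card] at h3
      omega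
    · -- k ≥ 6
      have hsub : {F : Set Pt | M.IsFlat F ∧ M.eRk F = (k : ℕ∞)} ⊆ {Set.univ} := by
        rintro F ⟨hF, hr⟩
        obtain ⟨I, hI, hInd, hc⟩ := flat_eq hF hr
        rw [Set.mem_singleton_iff, ← hc]
        apply Set.eq_univ_of_forall
        intro e
        by_contra he
        have hI' : M.Indep (I : Set Pt) := (M_indep I).2 hInd
        rw [hI'.notMem_closure_iff (by rw [M_E]; trivial)] at he
        have h2 : M.Indep (insert e (I : Set Pt)) ↔ Ind (insert e I) := by
          rw [← M_indep]; simp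
        have h3 := (h2.1 he.1).1
        rw [Finset.card_insert_of_notMem (by simpa using he.2)] at h3
        omega
      have h1 := Set.ncard_le_ncard hsub (Set.toFinite _)
      rw [Set.ncard_singleton] at h1
      omega

lemma M_eRk_le : M.eRk M.E ≤ 6 := by
  obtain ⟨I, hI⟩ := M.exists_isBasis M.E
  obtain ⟨J, rfl⟩ := indep_toFinset I
  rw [← hI.encard_eq_eRk, Set.encard_coe_eq_coe_finsetCard]
  have := ((M_indep J).1 hI.indep).1
  exact_mod_cast this

lemma M_paving (C : Set Pt) (hC : M.IsCircuit C) : M.eRk M.E ≤ C.encard := by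
  refine M_eRk_le.trans ?_
  obtain ⟨J, rfl⟩ := indep_toFinset C
  rw [Set.encard_coe_eq_coe_finsetCard]
  by_contra h
  push Not at h
  have h6 : J.card < 6 := by exact_mod_cast h
  exact hC.dep.not_indep ((M_indep J).2 (ind_of_card (by omega)))

lemma M_eRk : M.eRk M.E = 6 := by
  refine le_antisymm M_eRk_le ?_
  have hcard : (univ.filter fun x : Pt => x.1 < 6 ∧ x.2 = 0).card = 6 := by decide +kernel
  have h : Ind (univ.filter fun x : Pt => x.1 < 6 ∧ x.2 = 0) := by
    refine ⟨by omega, fun _ B hB hI => ?_⟩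
    obtain ⟨P, hP, rfl⟩ := Finset.mem_image.1 hB
    have h4 := planes_four P hP
    have hsub : (univ.filter fun i : Fin 8 => i < 6) ⊆ P := by
      intro i hi
      have : ((i, 0) : Pt) ∈ blk P := hI (by simpa using hi)
      simpa [mem_blk] using this
    have h5 := Finset.card_le_card hsub
    have h6 : (univ.filter fun i : Fin 8 => i < 6).card = 6 := by decide +kernel
    omega
  have h2 := (M_indep _).2 h
  have h3 := h2.encard_le_eRk_of_subset h2.subset_ground
  rw [Set.encard_coe_eq_coe_finsetCard, hcard] at h3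
  exact h3

/-- Main statement. -/
theorem main : ∃ (α : Type) (_ : Finite α) (M : Matroid α),
    Nat.card α = 16 ∧ M.E = Set.univ ∧ M.eRk M.E = 6 ∧
    (∀ C : Set α, M.IsCircuit C → M.eRk M.E ≤ C.encard) ∧
    ∃ A : Set (Set α), (∀ F ∈ A, M.IsFlat F) ∧ IsAntichain (· ⊆ ·) A ∧
      ∀ k : ℕ, {F : Set α | M.IsFlat F ∧ M.eRk F = (k : ℕ∞)}.ncard < A.ncard := by
  refine ⟨Pt, inferInstance, M, by simp [Pt], M_E, M_eRk, M_paving,
    (fun I : Finset Pt => (I : Set Pt)) '' (anti : Set (Finset Pt)), ?_, ?_, ?_⟩
  · rintro F ⟨I, hI, rfl⟩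
    rw [Matroid.isFlat_iff_closure_eq]
    rcases Finset.mem_union.1 (Finset.mem_coe.1 hI) with h | h
    · exact flat_triv h
    · exact flat_small (by rw [quad_card h])
  · rintro F ⟨I, hI, rfl⟩ G ⟨J, hJ, rfl⟩ hne hsub
    apply hne
    have := anti_antichain (Finset.mem_coe.1 hI) (Finset.mem_coe.1 hJ) (by simpa using hsub)
    rw [this]
  · intro k
    rw [Set.ncard_image_of_injective _ Finset.coe_injective, Set.ncard_coe_finset, anti_card]
    exact level_count k

end Pool.Agent.H478R3.PavSperner
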